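import Pool.Agent.V1197.AD.Step

set_option autoImplicit false

/-!
# Assouad dimension of projections of self-similar sets with dense rotations
-/

namespace Pool.Agent.Results.MP_b41e65_an.DenseRotations

open Set Metric Filter Topology Module
open Pool.Agent.V1197.AD

/-- Euclidean space `ℝ^d` -/
abbrev Sp (d : ℕ) : Type := EuclideanSpace ℝ (Fin d)

/-- the orthogonal group `O(d)`: the linear isometries of `ℝ^d` -/
abbrev Iso (d : ℕ) : Type := Sp d ≃ₗᵢ[ℝ] Sp d

/-- the determinant -/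
noncomputable def isoDet {d : ℕ} (R : Iso d) : ℝ :=
  LinearMap.det (R.toLinearEquiv : Sp d →ₗ[ℝ] Sp d)

/-- `R` and `Q` are at distance at most `ε` in the operator norm -/
def Near {d : ℕ} (R Q : Iso d) (ε : ℝ) : Prop := ∀ x, ‖R x - Q x‖ ≤ ε * ‖x‖

/-- The rotations are dense: the closure (in the operator norm) of the group generated by the
`O i` contains every linear isometry of determinant one. -/
def RotationsDense {d : ℕ} {ι : Type} (O : ι → Iso d) : Prop :=
  ∀ R : Iso d, isoDet R = 1 → ∀ ε : ℝ, 0 < ε → ∃ g ∈ Subgroup.closure (range O), Near g R ε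

/-- the similarity `x ↦ c O x + t` -/
noncomputable def sim {d : ℕ} (c : ℝ) (O : Iso d) (t : Sp d) (x : Sp d) : Sp d := c • O x + t

/-- `F` is the attractor of the maps `x ↦ c i • O i x + t i` -/
def IsAttractor {d : ℕ} {ι : Type} (c : ι → ℝ) (O : ι → Iso d) (t : ι → Sp d)
    (F : Set (Sp d)) : Prop :=
  F.Nonempty ∧ IsCompact F ∧ F = ⋃ i, sim (c i) (O i) (t i) '' F

section general

variable {E : Type*} [NormedAddCommGroup E] [InnerProductSpace ℝ E]

theorem abs_dt [FiniteDimensional ℝ E] (R : E ≃ₗᵢ[ℝ] E) : |dt R| = 1 := by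
  borelize E
  let μ : MeasureTheory.Measure E := MeasureTheory.Measure.addHaar
  have h1 := MeasureTheory.Measure.addHaar_image_linearMap μ (R.toLinearEquiv : E →ₗ[ℝ] E)
    (ball (0 : E) 1)
  have h2 : (R.toLinearEquiv : E →ₗ[ℝ] E) '' ball (0 : E) 1 = ball 0 1 := by
    have h3 := R.image_ball (0 : E) 1
    rw [LinearIsometryEquiv.map_zero] at h3
    exact h3
  rw [h2] at h1
  have hpos : μ (ball (0 : E) 1) ≠ 0 := (measure_ball_pos μ _ zero_lt_one).ne'
  have htop : μ (ball (0 : E) 1) ≠ ⊤ := MeasureTheory.measure_ball_lt_top.ne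
  have h4 : ENNReal.ofReal |dt R| = 1 := by
    have h5 : ENNReal.ofReal |dt R| * μ (ball 0 1) = 1 * μ (ball 0 1) := by
      rw [one_mul]; exact h1.symm
    exact (ENNReal.mul_left_inj hpos htop).1 h5
  rw [← ENNReal.ofReal_one] at h4
  exact (ENNReal.ofReal_eq_ofReal_iff (abs_nonneg _) zero_le_one).1 h4

theorem dt_mul_self [FiniteDimensional ℝ E] (R : E ≃ₗᵢ[ℝ] E) : dt (R * R) = 1 := by
  rw [dt_mul, ← abs_mul_abs_self, abs_dt, one_mul]

/-- elements of the group generated by the rotations are approximated by words -/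
theorem approx_word [FiniteDimensional ℝ E] {F : Set E} {ι : Type} {c : ι → ℝ}
    {O : ι → (E ≃ₗᵢ[ℝ] E)} {S : ι → E → E} (hS : ∀ i, Good F (c i) (O i) (S i))
    {g : E ≃ₗᵢ[ℝ] E} (hg : g ∈ Subgroup.closure (range O)) :
    ∀ ε : ℝ, 0 < ε → ∃ c' O' S', Good F c' O' S' ∧ ‖cl O' - cl g‖ < ε := by
  induction hg using Subgroup.closure_induction with
  | mem x hx =>
    obtain ⟨i, rfl⟩ := hx
    exact fun ε hε => ⟨_, _, _, hS i, by rwa [sub_self, norm_zero]⟩
  | one => exact fun ε hε => ⟨_, _, _, Good.one F, by rwa [sub_self, norm_zero]⟩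
  | mul x y _ _ hx hy =>
    intro ε hε
    obtain ⟨c₁, O₁, S₁, h₁, h₁'⟩ := hx (ε / 2) (by positivity)
    obtain ⟨c₂, O₂, S₂, h₂, h₂'⟩ := hy (ε / 2) (by positivity)
    refine ⟨_, _, _, h₁.comp h₂, ?_⟩
    have := cl_mul_sub O₁ x O₂ y
    linarith
  | inv x _ hx =>
    intro ε hε
    obtain ⟨c₁, O₁, S₁, h₁, h₁'⟩ := hx (ε / 2) (by positivity)
    obtain ⟨n, hn, hn1⟩ := ((exists_pow_near O₁ (show (0 : ℝ) < ε / 2 by
      positivity)).and_eventually (eventually_ge_atTop 1)).exists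
    refine ⟨_, _, _, h₁.iterate (n - 1), ?_⟩
    have h2 : O₁ ^ (n - 1) = O₁⁻¹ * O₁ ^ n := by
      obtain ⟨m, rfl⟩ : ∃ m, n = m + 1 := ⟨n - 1, by omega⟩
      rw [pow_succ', inv_mul_cancel_left]
      congr 1
    have h3 : ‖cl (O₁ ^ (n - 1)) - cl O₁⁻¹‖ < ε / 2 := by
      have h4 : cl (O₁ ^ (n - 1)) - cl O₁⁻¹ = cl O₁⁻¹ * (cl (O₁ ^ n) - 1) := by
        rw [h2, cl_mul, mul_sub, mul_one]
      rw [h4, norm_cl_mul]
      exact hn
    have h5 := cl_inv_sub O₁ x
    have h6 := norm_sub_le_norm_sub_add_norm_sub (cl (O₁ ^ (n - 1))) (cl O₁⁻¹) (cl x⁻¹)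
    linarith

theorem apx_multiset {F : Set E} {V : Submodule ℝ E} [V.HasOrthogonalProjection]
    (hne : F.Nonempty)
    (hstep : ∀ (T : Set E) (f : E), f ∈ V → Apx F V T → Apx F V (T ∪ (fun v => v + f) '' T))
    (A : Multiset E) (hA : ∀ f ∈ A, f ∈ V) : Apx F V {v | ∃ B ≤ A, v = B.sum} := by
  classical
  induction A using Multiset.induction with
  | empty =>
    refine (Apx.zero hne).mono ?_
    rintro v ⟨B, hB, rfl⟩
    rw [Multiset.le_zero.1 hB]
    simp
  | cons a A ih =>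
    refine (hstep _ a (hA a (Multiset.mem_cons_self a A))
      (ih fun f hf => hA f (Multiset.mem_cons_of_mem hf))).mono ?_
    rintro v ⟨B, hB, rfl⟩
    by_cases ha : a ∈ B
    · right
      refine ⟨(B.erase a).sum, ⟨B.erase a, Multiset.erase_le_iff_le_cons.2 hB, rfl⟩, ?_⟩
      simp only
      rw [add_comm, Multiset.sum_erase ha]
    · left
      exact ⟨B, (Multiset.le_cons_of_notMem ha).1 hB, rfl⟩

/-- all bounds `AssouadBound` have exponent at least `dim V` -/
theorem finrank_le [FiniteDimensional ℝ E] {F : Set E} {V : Submodule ℝ E}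
    (hdens : ∀ R : E ≃ₗᵢ[ℝ] E, dt R = 1 → ∀ ε : ℝ, 0 < ε →
      ∃ c O S, Good F c O S ∧ ‖cl O - cl R‖ < ε)
    (hall : ∀ A : Multiset E, (∀ f ∈ A, f ∈ V) → Apx F V {v | ∃ B ≤ A, v = B.sum})
    {s : ℝ} (hs : AssouadBound (V.starProjection '' F) s) : (finrank ℝ V : ℝ) ≤ s := by
  classical
  set k := finrank ℝ V with hk
  set b := stdOrthonormalBasis ℝ V with hb
  refine le_of_grid (D := k + 1) (by positivity) (fun M => ?_) hs
  -- the multiset
  set A : Multiset E := ∑ l : Fin k, M • {(b l : E)} with hA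
  have hAV : ∀ f ∈ A, f ∈ V := by
    intro f hf
    rw [hA, Multiset.mem_sum] at hf
    obtain ⟨l, -, hl⟩ := hf
    have h1 := Multiset.mem_of_mem_nsmul hl
    rw [Multiset.mem_singleton] at h1
    rw [h1]
    exact (b l).2
  obtain ⟨R, hR, ε, hε, lam, hlam, z₀, hz₀, H⟩ := hall A hAV (1 / 4) (by norm_num)
  obtain ⟨c, O, S, hS, hO⟩ := hdens R hR ε hε
  -- the grid
  let w : (Fin k → Fin (M + 1)) → V := fun g => ∑ l, ((g l : ℕ) : ℝ) • b l
  have hw : ∀ g, (w g : E) ∈ {v : E | ∃ B ≤ A, v = B.sum} := by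
    intro g
    refine ⟨∑ l : Fin k, (g l : ℕ) • {(b l : E)}, ?_, ?_⟩
    · exact Finset.sum_le_sum fun l _ => nsmul_le_nsmul_left (by simp) (by
        have := (g l).2
        omega)
    · rw [← Multiset.coe_sumAddMonoidHom, map_sum]
      simp only [w, map_nsmul, Multiset.coe_sumAddMonoidHom, Multiset.sum_singleton]
      rw [Submodule.coe_sum]
      refine Finset.sum_congr rfl fun l _ => ?_
      rw [Submodule.coe_smul, Nat.cast_smul_eq_nsmul]
  choose z hzF hz using fun g => H (w g : E) (hw g)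
  have hc := hS.1
  have hkey : ∀ g, ‖V.starProjection (S (z g)) - V.starProjection (S z₀)
      - (c * lam) • (w g : E)‖ ≤ 1 / 4 * (c * lam) := by
    intro g
    have h1 := hz g O hO.le
    have h2 : V.starProjection (S (z g)) - V.starProjection (S z₀) - (c * lam) • (w g : E)
        = c • (V.starProjection (O (z g - z₀)) - lam • (w g : E)) := by
      rw [← map_sub, hS.2.2, map_smul, smul_sub, smul_smul]
    rw [h2, norm_smul, Real.norm_eq_abs, abs_of_pos hc]
    calc c * ‖V.starProjection (O (z g - z₀)) - lam • (w g : E)‖ ≤ c * (1 / 4 * lam) := by gcongr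
      _ = 1 / 4 * (c * lam) := by ring
  have hcl : 0 < c * lam := mul_pos hc hlam
  have hdiff : ∀ g g', |‖V.starProjection (S (z g)) - V.starProjection (S (z g'))‖
      - (c * lam) * ‖w g - w g'‖| ≤ 1 / 2 * (c * lam) := by
    intro g g'
    have h1 := hkey g
    have h2 := hkey g'
    have h3 : ‖(c * lam) • ((w g : E) - w g')‖ = (c * lam) * ‖w g - w g'‖ := by
      rw [norm_smul, Real.norm_eq_abs, abs_of_pos hcl]
      rfl
    rw [← h3]
    refine (abs_norm_sub_norm_le _ _).trans ?_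
    have h4 : V.starProjection (S (z g)) - V.starProjection (S (z g'))
        - (c * lam) • ((w g : E) - w g')
        = (V.starProjection (S (z g)) - V.starProjection (S z₀) - (c * lam) • (w g : E))
          - (V.starProjection (S (z g')) - V.starProjection (S z₀) - (c * lam) • (w g' : E)) := by
      rw [smul_sub]; abel
    rw [h4]
    refine (norm_sub_le _ _).trans ?_
    linarith
  have hcoef : ∀ g g', w g - w g' = ∑ l, (((g l : ℕ) : ℝ) - ((g' l : ℕ) : ℝ)) • b l := by
    intro g g'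
    simp only [w]
    rw [← Finset.sum_sub_distrib]
    exact Finset.sum_congr rfl fun l _ => by rw [sub_smul]
  refine ⟨c * lam, hcl, fun g => V.starProjection (S (z g)),
    fun g => ⟨_, hS.2.1 (hzF g), rfl⟩, fun g g' hgg => ?_, fun g g' => ?_⟩
  · obtain ⟨l, hl⟩ := Function.ne_iff.1 hgg
    have h1 : inner ℝ (b l) (w g - w g') = ((g l : ℕ) : ℝ) - ((g' l : ℕ) : ℝ) := by
      rw [hcoef, b.orthonormal.inner_right_fintype]
    have h2 : (1 : ℝ) ≤ |((g l : ℕ) : ℝ) - ((g' l : ℕ) : ℝ)| := by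
      have h3 : ((g l : ℕ) : ℤ) - ((g' l : ℕ) : ℤ) ≠ 0 := by
        intro h0
        apply hl
        apply Fin.ext
        omega
      have h4 := Int.one_le_abs h3
      have h5 : |((g l : ℕ) : ℝ) - ((g' l : ℕ) : ℝ)|
          = ((|((g l : ℕ) : ℤ) - ((g' l : ℕ) : ℤ)| : ℤ) : ℝ) := by push_cast; rfl
      rw [h5]
      exact_mod_cast h4
    have h3 : (1 : ℝ) ≤ ‖w g - w g'‖ := by
      have h4 := abs_real_inner_le_norm (b l) (w g - w g')
      rw [h1, b.orthonormal.1 l, one_mul] at h4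
      exact h2.trans h4
    have h4 := (abs_le.1 (hdiff g g')).1
    rw [dist_eq_norm]
    nlinarith
  · have h1 : ‖w g - w g'‖ ≤ k * M := by
      rw [hcoef]
      refine (norm_sum_le _ _).trans ?_
      calc ∑ l, ‖(((g l : ℕ) : ℝ) - ((g' l : ℕ) : ℝ)) • b l‖ ≤ ∑ _l : Fin k, (M : ℝ) := by
            refine Finset.sum_le_sum fun l _ => ?_
            rw [norm_smul, b.orthonormal.1 l, mul_one, Real.norm_eq_abs, abs_le]
            have h5 : ((g l : ℕ) : ℝ) ≤ M := by exact_mod_cast Nat.lt_succ_iff.1 (g l).2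
            have h6 : ((g' l : ℕ) : ℝ) ≤ M := by exact_mod_cast Nat.lt_succ_iff.1 (g' l).2
            have h7 : (0 : ℝ) ≤ ((g l : ℕ) : ℝ) := Nat.cast_nonneg _
            have h8 : (0 : ℝ) ≤ ((g' l : ℕ) : ℝ) := Nat.cast_nonneg _
            constructor <;> linarith
        _ = k * M := by simp
    have h2 := (abs_le.1 (hdiff g g')).2
    rw [dist_eq_norm]
    have h3 : (0 : ℝ) ≤ k := Nat.cast_nonneg _
    have h4 : (0 : ℝ) ≤ M := Nat.cast_nonneg _
    have h5 : (c * lam) * ‖w g - w g'‖ ≤ (c * lam) * (k * M) := by gcongr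
    have h6 : (c * lam) * (k * M) + 1 / 2 * (c * lam) ≤ (k + 1) * (M + 1) * (c * lam) := by
      nlinarith [mul_nonneg h3 h4, hcl]
    linarith

theorem main_theorem [FiniteDimensional ℝ E] {ι : Type} [Fintype ι] {c : ι → ℝ}
    (hc : ∀ i, 0 < c i ∧ c i < 1) {O : ι → (E ≃ₗᵢ[ℝ] E)} {t : ι → E}
    {F : Set E} (hFc : IsCompact F)
    (hF : F = ⋃ i, (fun x => c i • O i x + t i) '' F) (hF2 : F.Nontrivial)
    (hdense : ∀ R : E ≃ₗᵢ[ℝ] E, dt R = 1 → ∀ ε : ℝ, 0 < ε →
      ∃ g ∈ Subgroup.closure (range O), ∀ x, ‖g x - R x‖ ≤ ε * ‖x‖)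
    {V : Submodule ℝ E} (hkd : finrank ℝ V < finrank ℝ E) :
    assouadDim (V.starProjection '' F) = finrank ℝ V := by
  classical
  -- the maps
  set S : ι → E → E := fun i x => c i • O i x + t i with hS
  have hgood : ∀ i, Good F (c i) (O i) (S i) := by
    intro i
    refine ⟨(hc i).1, ?_, fun x y => ?_⟩
    · intro x hx
      rw [hF]
      exact mem_iUnion.2 ⟨i, x, hx, rfl⟩
    · simp only [hS]
      rw [LinearIsometryEquiv.map_sub, smul_sub]
      abel
  have hdens : ∀ R : E ≃ₗᵢ[ℝ] E, dt R = 1 → ∀ ε : ℝ, 0 < ε →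
      ∃ c O S, Good F c O S ∧ ‖cl O - cl R‖ < ε := by
    intro R hR ε hε
    obtain ⟨g, hg, hgR⟩ := hdense R hR (ε / 4) (by positivity)
    obtain ⟨c', O', S', hS', hO'⟩ := approx_word hgood hg (ε / 2) (by positivity)
    refine ⟨c', O', S', hS', ?_⟩
    have h1 : ‖cl g - cl R‖ ≤ ε / 4 :=
      ContinuousLinearMap.opNorm_le_bound _ (by positivity) fun x => hgR x
    have h2 := norm_sub_le_norm_sub_add_norm_sub (cl O') (cl g) (cl R)
    linarith
  -- fixed points
  have hfix : ∀ i, ∃ x, S i x = x := by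
    intro i
    have hcon : ContractingWith ⟨c i, (hc i).1.le⟩ (S i) := by
      refine ⟨by exact_mod_cast (hc i).2, LipschitzWith.of_dist_le_mul fun a b => ?_⟩
      rw [dist_eq_norm, dist_eq_norm, (hgood i).norm_sub]
      rfl
    exact ⟨_, hcon.fixedPoint_isFixedPt⟩
  have huniq : ∀ i x y, S i x = x → S i y = y → x = y := by
    intro i x y hx hy
    have h1 := (hgood i).norm_sub x y
    rw [hx, hy] at h1
    have h2 : ‖x - y‖ = 0 := by
      have := (hc i).2
      nlinarith [norm_nonneg (x - y)]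
    exact sub_eq_zero.1 (norm_eq_zero.1 h2)
  choose x hx using hfix
  -- two maps without common fixed point
  obtain ⟨i, j, hij⟩ : ∃ i j, S j (x i) ≠ x i := by
    by_contra hcon
    push Not at hcon
    obtain ⟨p, hp⟩ := hF2.nonempty
    rw [hF] at hp
    obtain ⟨i, -⟩ := mem_iUnion.1 hp
    obtain ⟨y, hy, hmax⟩ := hFc.exists_isMaxOn hF2.nonempty
      (continuous_norm.comp (continuous_id.sub continuous_const)).continuousOn (f := fun y => ‖y - x i‖)
    have hy' := hy
    rw [hF] at hy'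
    obtain ⟨j, y', hy'F, hyy'⟩ := mem_iUnion.1 hy'
    have h1 := (hgood j).norm_sub y' (x i)
    have h2 : S j y' = y := hyy'
    rw [h2, hcon i j] at h1
    have h3 : ‖y' - x i‖ ≤ ‖y - x i‖ := hmax hy'F
    have h4 : ‖y - x i‖ = 0 := by
      have := (hc j).1
      have := (hc j).2
      nlinarith [norm_nonneg (y - x i), norm_nonneg (y' - x i)]
    have h5 : ∀ q ∈ F, q = x i := by
      intro q hq
      have h6 : ‖q - x i‖ ≤ ‖y - x i‖ := hmax hq
      rw [h4] at h6
      exact sub_eq_zero.1 (norm_le_zero_iff.1 h6)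
    obtain ⟨q₁, hq₁, q₂, hq₂, hne⟩ := hF2
    exact hne ((h5 q₁ hq₁).trans (h5 q₂ hq₂).symm)
  have hjj : (S j ∘ S j) (x i) ≠ x i := by
    intro h0
    apply hij
    have h1 : x i = x j := by
      have h2 := ((hgood j).comp (hgood j)).norm_sub (x i) (x j)
      rw [h0, Function.comp_apply, hx j, hx j] at h2
      have h3 : ‖x i - x j‖ = 0 := by
        have := (hc j).1
        have := (hc j).2
        have h4 : c j * c j < 1 := by nlinarith
        nlinarith [norm_nonneg (x i - x j)]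
      exact sub_eq_zero.1 (norm_eq_zero.1 h3)
    rw [h1]
    exact hx j
  -- a unit vector orthogonal to `V`
  obtain ⟨u, hu, huV⟩ : ∃ u : E, ‖u‖ = 1 ∧ u ∈ Vᗮ := by
    have h1 := V.finrank_add_finrank_orthogonal
    have h3 : Vᗮ ≠ ⊥ := by
      intro h0
      rw [h0, finrank_bot] at h1
      omega
    obtain ⟨v, hv, hv0⟩ := Submodule.exists_mem_ne_zero_of_ne_bot h3
    refine ⟨‖v‖⁻¹ • v, ?_, Vᗮ.smul_mem _ hv⟩
    rw [norm_smul, norm_inv, norm_norm, inv_mul_cancel₀ (norm_ne_zero_iff.2 hv0)]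
  have hall : ∀ A : Multiset E, (∀ f ∈ A, f ∈ V) → Apx F V {v | ∃ B ≤ A, v = B.sum} :=
    apx_multiset hF2.nonempty fun T f hf hT =>
      hT.step hdens (hgood i) (hc i).2 (hx i) ((hgood j).comp (hgood j)) (dt_mul_self (O j)) hjj
        hu huV hf
  refine assouadDim_eq_of (by positivity) (assouadBound_of_subspace V ?_)
    fun s hs => finrank_le hdens hall hs
  rintro _ ⟨y, -, rfl⟩
  exact V.starProjection_apply_mem y

end general

/-- Let `F ⊆ ℝ^d` be a self-similar set with at least two points, the attractor of finitely many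
contracting similarities `x ↦ c i • O i x + t i` with dense rotations. Then for every
`1 ≤ k < d` and every orthogonal projection `π` onto a `k`-dimensional subspace,
`dim_A π F = k`. -/
theorem result (d k : ℕ) (_hk : 1 ≤ k) (hkd : k < d) (ι : Type) [Fintype ι] (c : ι → ℝ)
    (hc : ∀ i, 0 < c i ∧ c i < 1) (O : ι → Iso d) (t : ι → Sp d) (F : Set (Sp d))
    (hF : IsAttractor c O t F) (hF2 : F.Nontrivial) (hdense : RotationsDense O)
    (V : Submodule ℝ (Sp d)) (hV : finrank ℝ V = k) :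
    assouadDim (V.starProjection '' F) = k := by
  rw [← hV]
  exact main_theorem hc hF.2.1 hF.2.2 hF2 hdense (by rw [hV, finrank_euclideanSpace_fin]; exact hkd)

end Pool.Agent.Results.MP_b41e65_an.DenseRotations
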